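import Mathlib

/-!
# MP_0ac5c2_an: linear algebra for pairs `(T, k)` with `1 - T Tᴴ = k ⊗ k`

* `commutator_rank_two`: if also `A - T A Tᴴ = a ⊗ k + k ⊗ a`, then `T A - A T = p ⊗ x + k ⊗ y`.
* `stein_det_ne_zero`: if all eigenvalues of `T` are in the open unit disc, the Stein operator
  `X ↦ X - T X Tᴴ` is invertible.
-/

set_option autoImplicit false
open Matrix
open scoped ComplexOrder

namespace Pool.Agent.Helper146_TTO

variable {n : ℕ}

theorem commutator_rank_two (T A : Matrix (Fin n) (Fin n) ℂ) (k a : Fin n → ℂ)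
    (h1 : 1 - T * Tᴴ = vecMulVec k (star k))
    (h2 : A - T * A * Tᴴ = vecMulVec a (star k) + vecMulVec k (star a)) :
    ∃ p x y : Fin n → ℂ, T * A - A * T = vecMulVec p x + vecMulVec k y := by
  have hTT : T * Tᴴ = 1 - vecMulVec k (star k) := by rw [← h1]; abel
  have hTA : T * A * Tᴴ = A - (vecMulVec a (star k) + vecMulVec k (star a)) := by rw [← h2]; abel
  have hX : (T * A - A * T) * Tᴴ =
      vecMulVec (A *ᵥ k - a) (star k) - vecMulVec k (star a) := by
    rw [sub_mul, hTA, mul_assoc A T, hTT, mul_sub, mul_one, mul_vecMulVec, sub_vecMulVec]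
    abel
  obtain ⟨Z, Z', p, hZ, hXZ⟩ : ∃ (Z Z' : Matrix (Fin n) (Fin n) ℂ) (p : Fin n → ℂ), Z * Z' = 1 ∧
      (T * A - A * T) * Z = vecMulVec p (star k) - vecMulVec k (star a) := by
    by_cases hdet : T.det = 0
    · obtain ⟨l, hl, hTl⟩ := Matrix.exists_mulVec_eq_zero_iff.mpr hdet
      have hll : star l ⬝ᵥ l ≠ 0 := by
        intro h0
        exact hl (dotProduct_star_self_eq_zero.mp h0)
      let S : Matrix (Fin n) (Fin n) ℂ := T + (star l ⬝ᵥ l)⁻¹ • vecMulVec k (star l)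
      let Z : Matrix (Fin n) (Fin n) ℂ := Tᴴ + vecMulVec l (star k)
      have hSZ : S * Z = 1 := by
        have e1 : T * vecMulVec l (star k) = 0 := by
          rw [mul_vecMulVec, hTl, zero_vecMulVec]
        have e2 : vecMulVec k (star l) * Tᴴ = 0 := by
          rw [vecMulVec_mul]
          have : star l ᵥ* Tᴴ = 0 := by
            rw [← star_mulVec, hTl, star_zero]
          rw [this, vecMulVec_zero]
        have e3 : vecMulVec k (star l) * vecMulVec l (star k) =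
            (star l ⬝ᵥ l) • vecMulVec k (star k) := by
          rw [vecMulVec_mul_vecMulVec, vecMulVec_smul]
        simp only [S, Z, add_mul, mul_add, smul_mul_assoc, e1, e2, e3, hTT, smul_zero, smul_smul,
          inv_mul_cancel₀ hll, one_smul]
        abel
      refine ⟨Z, S, A *ᵥ k - a + (T * A - A * T) *ᵥ l, mul_eq_one_comm.mp hSZ, ?_⟩
      simp only [Z]
      rw [mul_add, hX, mul_vecMulVec, add_vecMulVec]
      abel
    · refine ⟨Tᴴ, Tᴴ⁻¹, A *ᵥ k - a, ?_, hX⟩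
      refine Matrix.mul_nonsing_inv _ ?_
      rw [det_conjTranspose]
      exact (Ne.isUnit hdet).star
  refine ⟨p, star k ᵥ* Z', -(star a ᵥ* Z'), ?_⟩
  calc T * A - A * T = (T * A - A * T) * Z * Z' := by rw [mul_assoc, hZ, mul_one]
    _ = _ := by
      rw [hXZ, sub_mul, vecMulVec_mul, vecMulVec_mul, vecMulVec_neg]
      abel

/-- The matrix of the Stein operator `X ↦ X - T X Tᴴ`. -/
def stein (T : Matrix (Fin n) (Fin n) ℂ) : Matrix (Fin n × Fin n) (Fin n × Fin n) ℂ :=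
  Matrix.of fun q r => (if q = r then 1 else 0) - T q.1 r.1 * star (T q.2 r.2)

/-- Vectorisation. -/
def vec (X : Matrix (Fin n) (Fin n) ℂ) : Fin n × Fin n → ℂ := fun q => X q.1 q.2

theorem stein_mulVec (T X : Matrix (Fin n) (Fin n) ℂ) :
    stein T *ᵥ vec X = vec (X - T * X * Tᴴ) := by
  ext ⟨i, j⟩
  have h1 : (stein T *ᵥ vec X) (i, j) =
      ∑ r : Fin n × Fin n, (((if (i, j) = r then 1 else 0) - T i r.1 * star (T j r.2)) *
        X r.1 r.2) := rfl
  have h2 : vec (X - T * X * Tᴴ) (i, j) = X i j - ∑ b, (∑ a, T i a * X a b) * star (T j b) := rfl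
  rw [h1, h2]
  simp only [sub_mul, Finset.sum_sub_distrib, ite_mul, one_mul, zero_mul, Finset.sum_ite_eq,
    Finset.mem_univ, if_true]
  congr 1
  rw [Fintype.sum_prod_type, Finset.sum_comm]
  refine Finset.sum_congr rfl fun b _ => ?_
  rw [Finset.sum_mul]
  refine Finset.sum_congr rfl fun a _ => ?_
  ring

theorem no_fixed (T : Matrix (Fin n) (Fin n) ℂ)
    (hT : ∀ μ : ℂ, ∀ x : Fin n → ℂ, x ≠ 0 → T *ᵥ x = μ • x → ‖μ‖ < 1)
    (X : Matrix (Fin n) (Fin n) ℂ) (hX : T * X * Tᴴ = X) : X = 0 := by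
  by_contra hX0
  let V : Submodule ℂ (Matrix (Fin n) (Fin n) ℂ) :=
    { carrier := {Y | T * Y * Tᴴ = Y}
      add_mem' := by
        intro a b ha hb
        simp only [Set.mem_ofPred_eq] at ha hb ⊢
        rw [mul_add, add_mul, ha, hb]
      zero_mem' := by simp
      smul_mem' := by
        intro c a ha
        simp only [Set.mem_ofPred_eq] at ha ⊢
        rw [mul_smul_comm, smul_mul_assoc, ha] }
  have hmem : ∀ Y, Y ∈ V ↔ T * Y * Tᴴ = Y := fun Y => Iff.rfl
  have hXV : X ∈ V := hX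
  have : Nontrivial V := ⟨⟨⟨X, hXV⟩, 0, fun h => hX0 (congrArg Subtype.val h)⟩⟩
  let L : Matrix (Fin n) (Fin n) ℂ →ₗ[ℂ] Matrix (Fin n) (Fin n) ℂ := LinearMap.mulLeft ℂ T
  have hL : ∀ Y ∈ V, L Y ∈ V := by
    intro Y hY
    rw [hmem] at hY ⊢
    show T * (T * Y) * Tᴴ = T * Y
    rw [mul_assoc T (T * Y), hY]
  obtain ⟨μ, hμ⟩ := Module.End.exists_eigenvalue (L.restrict hL)
  obtain ⟨⟨Y, hYV⟩, hY⟩ := hμ.exists_hasEigenvector
  have hY0 : Y ≠ 0 := fun h => hY.2 (Subtype.ext h)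
  have hTY : T * Y = μ • Y := congrArg Subtype.val hY.apply_eq_smul
  rw [hmem] at hYV
  -- a nonzero entry
  obtain ⟨i, j, hij⟩ : ∃ i j, Y i j ≠ 0 := by
    by_contra h
    push Not at h
    exact hY0 (Matrix.ext h)
  have hμ1 : ‖μ‖ < 1 := by
    refine hT μ (fun i => Y i j) (fun h => hij (congrFun h i)) ?_
    ext m
    have := congrFun (congrFun hTY m) j
    simpa [Matrix.mul_apply, mulVec, dotProduct] using this
  have hμ2 : μ • (Y * Tᴴ) = Y := by
    rw [← smul_mul_assoc, ← hTY, hYV]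
  have hμ0 : μ ≠ 0 := by
    intro h
    rw [h, zero_smul] at hμ2
    exact hY0 hμ2.symm
  have hYT : T * Yᴴ = (star μ)⁻¹ • Yᴴ := by
    have h1 : (μ • (Y * Tᴴ))ᴴ = Yᴴ := by rw [hμ2]
    rw [conjTranspose_smul, conjTranspose_mul, conjTranspose_conjTranspose] at h1
    rw [← h1, smul_smul, inv_mul_cancel₀ (star_ne_zero.mpr hμ0), one_smul]
    rw [h1]
  have hμ3 : ‖(star μ)⁻¹‖ < 1 := by
    refine hT _ (fun m => Yᴴ m i) (fun h => ?_) ?_
    · have := congrFun h j
      simp only [conjTranspose_apply, Pi.zero_apply, star_eq_zero] at this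
      exact hij this
    · ext m
      have := congrFun (congrFun hYT m) i
      simpa [Matrix.mul_apply, mulVec, dotProduct] using this
  rw [norm_inv, norm_star] at hμ3
  have hpos : 0 < ‖μ‖ := norm_pos_iff.mpr hμ0
  have := one_lt_inv_iff₀.mpr ⟨hpos, hμ1⟩
  linarith

theorem stein_det_ne_zero (T : Matrix (Fin n) (Fin n) ℂ)
    (hT : ∀ μ : ℂ, ∀ x : Fin n → ℂ, x ≠ 0 → T *ᵥ x = μ • x → ‖μ‖ < 1) : (stein T).det ≠ 0 := by
  intro hdet
  obtain ⟨v, hv, hv0⟩ := Matrix.exists_mulVec_eq_zero_iff.mpr hdet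
  let X : Matrix (Fin n) (Fin n) ℂ := Matrix.of fun i j => v (i, j)
  have hvX : v = vec X := rfl
  rw [hvX, stein_mulVec] at hv0
  have hX : T * X * Tᴴ = X := by
    ext i j
    have := congrFun hv0 (i, j)
    simp only [vec, Matrix.sub_apply, Pi.zero_apply] at this
    exact (sub_eq_zero.mp this).symm
  have := no_fixed T hT X hX
  apply hv
  rw [hvX, this]
  rfl

theorem vec_eq (T X : Matrix (Fin n) (Fin n) ℂ) (hdet : (stein T).det ≠ 0) :
    vec X = (stein T).det⁻¹ • ((stein T).adjugate *ᵥ vec (X - T * X * Tᴴ)) := by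
  rw [← stein_mulVec, mulVec_mulVec, adjugate_mul, smul_mulVec, one_mulVec, smul_smul,
    inv_mul_cancel₀ hdet, one_smul]

end Pool.Agent.Helper146_TTO
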