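import Mathlib
import Pool.Agent.Helper146_TTO.Alg

/-!
# MP_0ac5c2_an: the dimension count

`M = diag(0, …, n-1) + i B`, `B` real symmetric. If `M` satisfies Sarason's criterion for some `T`,
then `B` lies in the range of a smooth map from a real vector space of dimension `12 n + 2`.
-/

set_option autoImplicit false
open Matrix Module
open scoped ComplexOrder

namespace Pool.Agent.Helper146_TTO

variable {n : ℕ}

/-- The diagonal matrix `diag(0, …, n-1)`. -/
noncomputable def Dg (n : ℕ) : Matrix (Fin n) (Fin n) ℂ := Matrix.diagonal fun i => ((i : ℕ) : ℂ)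

/-- Real symmetric matrices, as functions on unordered pairs. -/
abbrev EE (n : ℕ) : Type := Sym2 (Fin n) → ℝ

/-- The symmetric matrix. -/
noncomputable def Bm (β : EE n) : Matrix (Fin n) (Fin n) ℂ :=
  Matrix.of fun i j => ((β s(i, j) : ℝ) : ℂ)

/-- The complex symmetric matrix `D + i B`. -/
noncomputable def Mm (β : EE n) : Matrix (Fin n) (Fin n) ℂ := Dg n + Complex.I • Bm β

theorem Bm_transpose (β : EE n) : (Bm β)ᵀ = Bm β := by
  ext i j
  simp only [Bm, transpose_apply, of_apply]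
  rw [Sym2.eq_swap]

theorem Bm_star (β : EE n) : (Bm β)ᴴ = Bm β := by
  ext i j
  simp only [Bm, conjTranspose_apply, of_apply]
  rw [Sym2.eq_swap]
  simp

theorem Dg_transpose : (Dg n)ᵀ = Dg n := by
  unfold Dg
  exact diagonal_transpose _

theorem Dg_star : (Dg n)ᴴ = Dg n := by
  unfold Dg
  rw [diagonal_conjTranspose]
  congr 1
  ext i
  simp

theorem Mm_transpose (β : EE n) : (Mm β)ᵀ = Mm β := by
  unfold Mm
  rw [transpose_add, transpose_smul, Bm_transpose, Dg_transpose]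

theorem Mm_star (β : EE n) : (Mm β)ᴴ = Dg n - Complex.I • Bm β := by
  unfold Mm
  rw [conjTranspose_add, conjTranspose_smul, Bm_star, Dg_star]
  simp [sub_eq_add_neg]

/-- The parameter space. -/
abbrev PP (n : ℕ) : Type := (Fin 6 → Fin n → ℂ) × ℂ

/-- `T` from the parameters. -/
noncomputable def Tp (q : PP n) : Matrix (Fin n) (Fin n) ℂ := Matrix.of fun i j =>
  if i = j then q.1 4 i else
    (q.1 0 i * q.1 1 j + q.1 2 i * q.1 3 j) * ((((j : ℕ) : ℂ) - ((i : ℕ) : ℂ))⁻¹)

/-- The right-hand side from the parameters. -/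
noncomputable def Rp (q : PP n) : Matrix (Fin n) (Fin n) ℂ :=
  vecMulVec (q.1 5) (star (q.1 2)) + vecMulVec (q.1 2) (star (q.1 5))

/-- The parametrisation. -/
noncomputable def Phi (q : PP n) : EE n := fun z =>
  (q.2 * ∑ r, (stein (Tp q)).adjugate (z.out.1, z.out.2) r * Rp q r.1 r.2).re

theorem contDiff_det {P ι : Type*} [NormedAddCommGroup P] [NormedSpace ℝ P] [Fintype ι]
    [DecidableEq ι] (M : P → Matrix ι ι ℂ) (h : ∀ i j, ContDiff ℝ 1 (fun p => M p i j)) :
    ContDiff ℝ 1 (fun p => (M p).det) := by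
  simp only [det_apply]
  refine ContDiff.sum fun σ _ => ?_
  have : ContDiff ℝ 1 (fun p => ∏ i, M p (σ i) i) := contDiff_prod fun i _ => h _ _
  rcases Int.units_eq_one_or (Equiv.Perm.sign σ) with hs | hs
  · simp only [hs, one_smul]
    exact this
  · simp only [hs, Units.neg_smul, one_smul]
    exact this.neg

theorem contDiff_adjugate {P ι : Type*} [NormedAddCommGroup P] [NormedSpace ℝ P] [Fintype ι]
    [DecidableEq ι] (M : P → Matrix ι ι ℂ) (h : ∀ i j, ContDiff ℝ 1 (fun p => M p i j)) (a b : ι) :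
    ContDiff ℝ 1 (fun p => (M p).adjugate a b) := by
  simp only [adjugate_apply]
  refine contDiff_det _ fun i j => ?_
  by_cases hib : i = b
  · subst hib
    simp only [updateRow_self]
    exact contDiff_const
  · simp only [updateRow_ne hib]
    exact h i j

theorem contDiff_coord (m : Fin 6) (i : Fin n) : ContDiff ℝ 1 (fun q : PP n => q.1 m i) := by
  have h1 : ContDiff ℝ 1 (fun q : PP n => q.1) := contDiff_fst
  exact contDiff_pi.mp (contDiff_pi.mp h1 m) i

theorem contDiff_star {P : Type*} [NormedAddCommGroup P] [NormedSpace ℝ P] (f : P → ℂ)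
    (h : ContDiff ℝ 1 f) : ContDiff ℝ 1 (fun q => star (f q)) :=
  (Complex.conjCLE.contDiff (n := 1)).comp h

theorem contDiff_Tp (i j : Fin n) : ContDiff ℝ 1 (fun q : PP n => Tp q i j) := by
  by_cases hij : i = j
  · simp only [Tp, of_apply, if_pos hij]
    exact contDiff_coord _ _
  · simp only [Tp, of_apply, if_neg hij]
    exact (((contDiff_coord _ _).mul (contDiff_coord _ _)).add
      ((contDiff_coord _ _).mul (contDiff_coord _ _))).mul contDiff_const

theorem contDiff_stein (a b : Fin n × Fin n) :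
    ContDiff ℝ 1 (fun q : PP n => stein (Tp q) a b) := by
  simp only [stein, of_apply]
  exact contDiff_const.sub ((contDiff_Tp _ _).mul (contDiff_star _ (contDiff_Tp _ _)))

theorem contDiff_Rp (i j : Fin n) : ContDiff ℝ 1 (fun q : PP n => Rp q i j) := by
  simp only [Rp, Matrix.add_apply, vecMulVec_apply, Pi.star_apply]
  exact ((contDiff_coord _ _).mul (contDiff_star _ (contDiff_coord _ _))).add
    ((contDiff_coord _ _).mul (contDiff_star _ (contDiff_coord _ _)))

theorem contDiff_Phi : ContDiff ℝ 1 (Phi : PP n → EE n) := by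
  refine contDiff_pi.mpr fun z => ?_
  have h : ContDiff ℝ 1 (fun q : PP n =>
      q.2 * ∑ r, (stein (Tp q)).adjugate (z.out.1, z.out.2) r * Rp q r.1 r.2) := by
    refine contDiff_snd.mul (ContDiff.sum fun r _ => ?_)
    exact (contDiff_adjugate _ contDiff_stein _ _).mul (contDiff_Rp _ _)
  exact (Complex.reCLM.contDiff (n := 1)).comp h

/-- Sarason's criterion. -/
def Crit (M : Matrix (Fin n) (Fin n) ℂ) : Prop :=
  ∃ T : Matrix (Fin n) (Fin n) ℂ, ∃ k u v : Fin n → ℂ,
    1 - T * Tᴴ = Matrix.vecMulVec k (star k) ∧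
    (∀ μ : ℂ, ∀ x : Fin n → ℂ, x ≠ 0 → T *ᵥ x = μ • x → ‖μ‖ < 1) ∧
    M - T * M * Tᴴ = Matrix.vecMulVec u (star k) + Matrix.vecMulVec k (star v)

theorem crit_mem_range (β : EE n) (h : Crit (Mm β)) : β ∈ Set.range (Phi : PP n → EE n) := by
  obtain ⟨T, k, u, v, h1, h2, h3⟩ := h
  have h3' : (Mm β)ᴴ - T * (Mm β)ᴴ * Tᴴ = vecMulVec k (star u) + vecMulVec v (star k) := by
    have := congrArg conjTranspose h3
    rw [conjTranspose_sub, conjTranspose_mul, conjTranspose_mul, conjTranspose_conjTranspose,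
      conjTranspose_add, conjTranspose_vecMulVec, conjTranspose_vecMulVec, star_star, star_star]
      at this
    rw [← this, mul_assoc]
  have hD : Dg n = (1 / 2 : ℂ) • (Mm β + (Mm β)ᴴ) := by
    rw [Mm_star]; unfold Mm
    rw [add_add_sub_cancel, ← two_smul ℂ (Dg n), smul_smul]
    norm_num
  have hB : Bm β = (1 / (2 * Complex.I) : ℂ) • (Mm β - (Mm β)ᴴ) := by
    rw [Mm_star]; unfold Mm
    rw [add_sub_sub_cancel, ← two_smul ℂ (Complex.I • Bm β), smul_smul, smul_smul]
    have : (1 / (2 * Complex.I) * 2 * Complex.I : ℂ) = 1 := by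
      field_simp [Complex.I_ne_zero]
    rw [this, one_smul]
  set a : Fin n → ℂ := (1 / 2 : ℂ) • (u + v) with ha
  set b : Fin n → ℂ := (1 / (2 * Complex.I) : ℂ) • (u - v) with hb
  have hA2 : Dg n - T * Dg n * Tᴴ = vecMulVec a (star k) + vecMulVec k (star a) := by
    have e1 : Dg n - T * Dg n * Tᴴ =
        (1 / 2 : ℂ) • ((Mm β - T * Mm β * Tᴴ) + ((Mm β)ᴴ - T * (Mm β)ᴴ * Tᴴ)) := by
      rw [hD]
      simp only [mul_smul_comm, smul_mul_assoc, mul_add, add_mul, smul_add, smul_sub]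
      abel
    rw [e1, h3, h3', ha]
    ext i j
    simp only [Matrix.smul_apply, Matrix.add_apply, vecMulVec_apply, Pi.star_apply, Pi.smul_apply,
      Pi.add_apply, smul_eq_mul, star_mul', star_add]
    have : star (1 / 2 : ℂ) = 1 / 2 := by simp
    rw [this]
    ring
  have hB2 : Bm β - T * Bm β * Tᴴ = vecMulVec b (star k) + vecMulVec k (star b) := by
    have e1 : Bm β - T * Bm β * Tᴴ =
        (1 / (2 * Complex.I) : ℂ) •
          ((Mm β - T * Mm β * Tᴴ) - ((Mm β)ᴴ - T * (Mm β)ᴴ * Tᴴ)) := by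
      rw [hB]
      simp only [mul_smul_comm, smul_mul_assoc, mul_sub, sub_mul, smul_sub]
      abel
    rw [e1, h3, h3', hb]
    ext i j
    simp only [Matrix.smul_apply, Matrix.add_apply, Matrix.sub_apply, vecMulVec_apply,
      Pi.star_apply, Pi.smul_apply, Pi.sub_apply, smul_eq_mul, star_mul', star_sub]
    have : star (1 / (2 * Complex.I) : ℂ) = -(1 / (2 * Complex.I)) := by
      simp
    rw [this]
    ring
  obtain ⟨p, x, y, hC⟩ := commutator_rank_two T (Dg n) k a h1 hA2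
  have hent : ∀ i j : Fin n, i ≠ j →
      T i j = (p i * x j + k i * y j) * ((((j : ℕ) : ℂ) - ((i : ℕ) : ℂ))⁻¹) := by
    intro i j hij
    have e := congrFun (congrFun hC i) j
    simp only [Dg, Matrix.sub_apply, Matrix.mul_diagonal, Matrix.diagonal_mul, Matrix.add_apply,
      vecMulVec_apply] at e
    have hne : (((j : ℕ) : ℂ) - ((i : ℕ) : ℂ)) ≠ 0 := by
      rw [sub_ne_zero]
      intro h
      exact hij (Fin.ext (by exact_mod_cast h.symm))
    rw [eq_mul_inv_iff_mul_eq₀ hne, ← e]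
    ring
  let q : PP n := (![p, x, k, y, fun i => T i i, b], (stein T).det⁻¹)
  have hq0 : q.1 0 = p := rfl
  have hq1 : q.1 1 = x := rfl
  have hq2 : q.1 2 = k := rfl
  have hq3 : q.1 3 = y := rfl
  have hq4 : q.1 4 = fun i => T i i := rfl
  have hq5 : q.1 5 = b := rfl
  have hTq : Tp q = T := by
    ext i j
    simp only [Tp, of_apply, hq0, hq1, hq2, hq3, hq4]
    by_cases hij : i = j
    · rw [if_pos hij, hij]
    · rw [if_neg hij, hent i j hij]
  have hRq : Rp q = Bm β - T * Bm β * Tᴴ := by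
    rw [hB2]
    simp only [Rp, hq2, hq5]
  refine ⟨q, ?_⟩
  ext z
  have hv := vec_eq T (Bm β) (stein_det_ne_zero T h2)
  have hz := congrFun hv (z.out.1, z.out.2)
  have hzz : vec (Bm β) (z.out.1, z.out.2) = ((β z : ℝ) : ℂ) := by
    have : s(z.out.1, z.out.2) = z := by
      rw [Sym2.mk, z.out_eq]
    simp only [vec, Bm, of_apply, this]
  rw [hzz, ← hRq] at hz
  have hPhi : Phi q z = (((stein T).det⁻¹ *
      ∑ r, (stein T).adjugate (z.out.1, z.out.2) r * Rp q r.1 r.2 : ℂ)).re := by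
    simp only [Phi, hTq]
    rfl
  rw [hPhi]
  have : ((stein T).det⁻¹ *
      ∑ r, (stein T).adjugate (z.out.1, z.out.2) r * Rp q r.1 r.2 : ℂ) = ((β z : ℝ) : ℂ) := by
    rw [hz]
    rfl
  rw [this, Complex.ofReal_re]

/-- Existence of two orthogonal nonzero eigenvectors. -/
def Orth (M : Matrix (Fin n) (Fin n) ℂ) : Prop :=
  ∃ x y : Fin n → ℂ, ∃ a b : ℂ, x ≠ 0 ∧ y ≠ 0 ∧
    M *ᵥ x = a • x ∧ M *ᵥ y = b • y ∧ star x ⬝ᵥ y = 0

/-- The unit sphere of `ℂ^n`. -/
abbrev Sph (n : ℕ) : Type := ↥(Metric.sphere (0 : Fin n → ℂ) 1)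

theorem eig_iff (M : Matrix (Fin n) (Fin n) ℂ) (x : Fin n → ℂ) (hx : x ≠ 0) :
    (∃ a : ℂ, M *ᵥ x = a • x) ↔ ∀ i j, (M *ᵥ x) i * x j = (M *ᵥ x) j * x i := by
  constructor
  · rintro ⟨a, ha⟩ i j
    rw [ha]
    simp only [Pi.smul_apply, smul_eq_mul]
    ring
  · intro h
    obtain ⟨j, hj⟩ := Function.ne_iff.mp hx
    simp only [Pi.zero_apply] at hj
    refine ⟨(M *ᵥ x) j / x j, ?_⟩
    ext i
    simp only [Pi.smul_apply, smul_eq_mul]
    rw [div_mul_eq_mul_div, eq_div_iff hj]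
    exact h i j

theorem isClosed_orth : IsClosed {β : EE n | Orth (Mm β)} := by
  let C : Set ((Sph n × Sph n) × EE n) :=
    {w | (∀ i j, (Mm w.2 *ᵥ w.1.1.1) i * w.1.1.1 j = (Mm w.2 *ᵥ w.1.1.1) j * w.1.1.1 i) ∧
      (∀ i j, (Mm w.2 *ᵥ w.1.2.1) i * w.1.2.1 j = (Mm w.2 *ᵥ w.1.2.1) j * w.1.2.1 i) ∧
      star w.1.1.1 ⬝ᵥ w.1.2.1 = 0}
  have hM : ∀ i j, Continuous (fun w : (Sph n × Sph n) × EE n => Mm w.2 i j) := by
    intro i j
    simp only [Mm, Matrix.add_apply, Matrix.smul_apply, Bm, of_apply]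
    have h : Continuous (fun w : (Sph n × Sph n) × EE n => ((w.2 s(i, j) : ℝ) : ℂ)) :=
      Complex.continuous_ofReal.comp ((continuous_apply _).comp continuous_snd)
    exact continuous_const.add (continuous_const.mul h)
  have hx : ∀ i, Continuous (fun w : (Sph n × Sph n) × EE n => w.1.1.1 i) := fun i =>
    (continuous_apply i).comp (continuous_subtype_val.comp (continuous_fst.comp continuous_fst))
  have hy : ∀ i, Continuous (fun w : (Sph n × Sph n) × EE n => w.1.2.1 i) := fun i =>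
    (continuous_apply i).comp (continuous_subtype_val.comp (continuous_snd.comp continuous_fst))
  have hMx : ∀ i, Continuous (fun w : (Sph n × Sph n) × EE n => (Mm w.2 *ᵥ w.1.1.1) i) := by
    intro i
    simp only [mulVec, dotProduct]
    exact continuous_finsetSum _ fun j _ => (hM i j).mul (hx j)
  have hMy : ∀ i, Continuous (fun w : (Sph n × Sph n) × EE n => (Mm w.2 *ᵥ w.1.2.1) i) := by
    intro i
    simp only [mulVec, dotProduct]
    exact continuous_finsetSum _ fun j _ => (hM i j).mul (hy j)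
  have hC : IsClosed C := by
    refine IsClosed.inter ?_ (IsClosed.inter ?_ ?_)
    · have : {w : (Sph n × Sph n) × EE n |
          ∀ i j, (Mm w.2 *ᵥ w.1.1.1) i * w.1.1.1 j = (Mm w.2 *ᵥ w.1.1.1) j * w.1.1.1 i} =
          ⋂ i, ⋂ j, {w | (Mm w.2 *ᵥ w.1.1.1) i * w.1.1.1 j = (Mm w.2 *ᵥ w.1.1.1) j * w.1.1.1 i} := by
        ext w; simp
      have h : IsClosed {w : (Sph n × Sph n) × EE n |
          ∀ i j, (Mm w.2 *ᵥ w.1.1.1) i * w.1.1.1 j = (Mm w.2 *ᵥ w.1.1.1) j * w.1.1.1 i} := by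
        rw [this]
        exact isClosed_iInter fun i => isClosed_iInter fun j =>
          isClosed_eq ((hMx i).mul (hx j)) ((hMx j).mul (hx i))
      exact h
    · have : {w : (Sph n × Sph n) × EE n |
          ∀ i j, (Mm w.2 *ᵥ w.1.2.1) i * w.1.2.1 j = (Mm w.2 *ᵥ w.1.2.1) j * w.1.2.1 i} =
          ⋂ i, ⋂ j, {w | (Mm w.2 *ᵥ w.1.2.1) i * w.1.2.1 j = (Mm w.2 *ᵥ w.1.2.1) j * w.1.2.1 i} := by
        ext w; simp
      have h : IsClosed {w : (Sph n × Sph n) × EE n |
          ∀ i j, (Mm w.2 *ᵥ w.1.2.1) i * w.1.2.1 j = (Mm w.2 *ᵥ w.1.2.1) j * w.1.2.1 i} := by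
        rw [this]
        exact isClosed_iInter fun i => isClosed_iInter fun j =>
          isClosed_eq ((hMy i).mul (hy j)) ((hMy j).mul (hy i))
      exact h
    · refine isClosed_eq ?_ continuous_const
      simp only [dotProduct, Pi.star_apply]
      exact continuous_finsetSum _ fun j _ => (continuous_star.comp (hx j)).mul (hy j)
  have himg : {β : EE n | Orth (Mm β)} = Prod.snd '' C := by
    ext β
    constructor
    · rintro ⟨x, y, a, b, hx0, hy0, ha, hb, hxy⟩
      have hnx : (‖x‖ : ℂ) ≠ 0 := by exact_mod_cast norm_ne_zero_iff.mpr hx0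
      have hny : (‖y‖ : ℂ) ≠ 0 := by exact_mod_cast norm_ne_zero_iff.mpr hy0
      have hsx : (‖x‖ : ℂ)⁻¹ • x ∈ Metric.sphere (0 : Fin n → ℂ) 1 := by
        rw [mem_sphere_zero_iff_norm, norm_smul, norm_inv, Complex.norm_real, norm_norm,
          inv_mul_cancel₀ (norm_ne_zero_iff.mpr hx0)]
      have hsy : (‖y‖ : ℂ)⁻¹ • y ∈ Metric.sphere (0 : Fin n → ℂ) 1 := by
        rw [mem_sphere_zero_iff_norm, norm_smul, norm_inv, Complex.norm_real, norm_norm,
          inv_mul_cancel₀ (norm_ne_zero_iff.mpr hy0)]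
      refine ⟨((⟨_, hsx⟩, ⟨_, hsy⟩), β), ⟨?_, ?_, ?_⟩, rfl⟩
      · refine (eig_iff _ _ (smul_ne_zero (inv_ne_zero hnx) hx0)).mp ⟨a, ?_⟩
        rw [mulVec_smul, ha, smul_comm]
      · refine (eig_iff _ _ (smul_ne_zero (inv_ne_zero hny) hy0)).mp ⟨b, ?_⟩
        rw [mulVec_smul, hb, smul_comm]
      · show star ((‖x‖ : ℂ)⁻¹ • x) ⬝ᵥ ((‖y‖ : ℂ)⁻¹ • y) = 0
        rw [star_smul, smul_dotProduct, dotProduct_smul, hxy]
        simp
    · rintro ⟨⟨⟨⟨x, hx1⟩, ⟨y, hy1⟩⟩, β'⟩, ⟨h1, h2, h3⟩, rfl⟩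
      have hx0 : x ≠ 0 := by
        rintro rfl
        simp at hx1
      have hy0 : y ≠ 0 := by
        rintro rfl
        simp at hy1
      obtain ⟨a, ha⟩ := (eig_iff _ x hx0).mpr h1
      obtain ⟨b, hb⟩ := (eig_iff _ y hy0).mpr h2
      exact ⟨x, y, a, b, hx0, hy0, ha, hb, h3⟩
  rw [himg]
  exact isClosedMap_snd_of_compactSpace C hC

/-- The all-ones matrix is a good choice of `B`. -/
theorem not_orth_one : ¬ Orth (Mm (fun _ => 1 : EE n)) := by
  rintro ⟨x, y, a, b, hx0, hy0, ha, hb, hxy⟩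
  have hBm : ∀ w : Fin n → ℂ, Bm (fun _ => 1 : EE n) *ᵥ w = fun _ => ∑ j, w j := by
    intro w
    ext i
    simp [Bm, mulVec, dotProduct]
  have hsum : ∀ (w : Fin n → ℂ) (c : ℂ), w ≠ 0 → Mm (fun _ => 1 : EE n) *ᵥ w = c • w →
      ∑ j, w j ≠ 0 := by
    intro w c hw hc hs
    obtain ⟨j, hj⟩ := Function.ne_iff.mp hw
    simp only [Pi.zero_apply] at hj
    have hcoord : ∀ i : Fin n, ((i : ℕ) : ℂ) * w i = c * w i := by
      intro i
      have := congrFun hc i
      simp only [Mm, add_mulVec, smul_mulVec, Pi.add_apply, Pi.smul_apply, hBm, hs,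
        smul_eq_mul, Dg, mulVec_diagonal, mul_zero, add_zero] at this
      exact this
    have hcj : c = ((j : ℕ) : ℂ) := (mul_right_cancel₀ hj (hcoord j)).symm
    have hz : ∀ i, i ≠ j → w i = 0 := by
      intro i hij
      by_contra hwi
      have := mul_right_cancel₀ hwi (hcoord i)
      rw [hcj] at this
      exact hij (Fin.ext (by exact_mod_cast this))
    rw [Finset.sum_eq_single j (fun i _ hij => hz i hij) (by simp)] at hs
    exact hj hs
  have hsx := hsum x a hx0 ha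
  have hsy := hsum y b hy0 hb
  -- `⟨x, (M - Mᴴ) y⟩ = 0`
  have e1 : star x ⬝ᵥ (Mm (fun _ => 1 : EE n) *ᵥ y) = 0 := by
    rw [hb, dotProduct_smul, hxy, smul_zero]
  have e2 : star x ⬝ᵥ ((Mm (fun _ => 1 : EE n))ᴴ *ᵥ y) = 0 := by
    rw [dotProduct_mulVec, ← star_mulVec, ha, star_smul, smul_dotProduct, hxy, smul_zero]
  have e3 : star x ⬝ᵥ (((2 * Complex.I : ℂ) • Bm (fun _ => 1 : EE n)) *ᵥ y) = 0 := by
    have : (2 * Complex.I : ℂ) • Bm (fun _ => 1 : EE n) =
        Mm (fun _ => 1 : EE n) - (Mm (fun _ => 1 : EE n))ᴴ := by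
      rw [Mm_star]; unfold Mm
      rw [add_sub_sub_cancel, ← two_smul ℂ (Complex.I • Bm _), smul_smul]
    rw [this, sub_mulVec, dotProduct_sub, e1, e2, sub_zero]
  rw [smul_mulVec, dotProduct_smul, hBm] at e3
  have e4 : star x ⬝ᵥ (fun _ => ∑ j, y j) = star (∑ j, x j) * ∑ j, y j := by
    simp only [dotProduct, Pi.star_apply]
    rw [← Finset.sum_mul, star_sum]
  rw [e4, smul_eq_mul] at e3
  have : (2 * Complex.I : ℂ) ≠ 0 := by simp
  rcases mul_eq_zero.mp e3 with h | h
  · exact this h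
  · rcases mul_eq_zero.mp h with h | h
    · exact hsx (star_eq_zero.mp h)
    · exact hsy h

theorem exists_counterexample (hn : 12 * n + 2 < (n + 1).choose 2) :
    ∃ M : Matrix (Fin n) (Fin n) ℂ, Mᵀ = M ∧ ¬ Orth M ∧ ¬ Crit M := by
  have hdim : finrank ℝ (PP n) < finrank ℝ (EE n) := by
    have h1 : finrank ℝ (PP n) = 12 * n + 2 := by
      rw [Module.finrank_prod, Module.finrank_pi_fintype, Complex.finrank_real_complex]
      simp only [Module.finrank_pi_fintype, Complex.finrank_real_complex, Finset.sum_const,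
        Finset.card_univ, Fintype.card_fin, smul_eq_mul]
      ring
    have h2 : finrank ℝ (EE n) = (n + 1).choose 2 := by
      rw [Module.finrank_pi, Sym2.card, Fintype.card_fin]
    rw [h1, h2]
    exact hn
  have hdense := ContDiff.dense_compl_range_of_finrank_lt_finrank
    (contDiff_Phi : ContDiff ℝ 1 (Phi : PP n → EE n)) hdim
  have hopen : IsOpen {β : EE n | Orth (Mm β)}ᶜ := isClosed_orth.isOpen_compl
  obtain ⟨β, hβ1, hβ2⟩ := hdense.inter_open_nonempty _ hopen ⟨fun _ => 1, not_orth_one⟩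
  exact ⟨Mm β, Mm_transpose β, hβ1, fun h => hβ2 (crit_mem_range β h)⟩

end Pool.Agent.Helper146_TTO
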